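import Pool.Agent.helper59.GF.Spec

/-!
Row gf:TOK (MP_06d6be_co): from `Good0` to `GoodK`.
-/

set_option autoImplicit false

namespace Pool.Agent.GF

open Filter Topology

theorem TOK_mu {p : ℕ} {s : Fin (p + 2) → ℝ} (hs : Function.Injective s)
    (hell : ∀ r, ell p (s r) ≠ 0) (r : Fin (p + 2)) : mu p s r ≠ 0 := by
  unfold mu
  refine div_ne_zero (hell r) (Finset.prod_ne_zero_iff.2 fun r' hr' => ?_)
  rw [Finset.mem_erase] at hr'
  exact sub_ne_zero.2 fun h => hr'.1 (hs h).symm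

theorem TOK_aff (hINT : INT_stmt) (hLVL : LVL_stmt) {p : ℕ} {s : Fin (p + 2) → ℝ}
    (hs : Function.Injective s) (hell : ∀ r, ell p (s r) ≠ 0) (A : Fin (p + 2) → ℝ)
    (hA : ∑ r, mu p s r * A r = 0) :
    ∃ (a0 : ℝ) (α : Fin p → ℝ), ∀ r, a0 + ∑ q, α q * Yl p (s r) q = A r := by
  obtain ⟨a0, α, h⟩ := hINT p (fun r => s r.castSucc)
    (fun r r' hr => Fin.castSucc_injective _ (hs hr)) (fun r => hell _) (fun r => A r.castSucc)
  refine ⟨a0, α, ?_⟩
  have h1 : ∑ r, mu p s r * (a0 + ∑ q, α q * Yl p (s r) q) = 0 := by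
    have e1 : ∀ r, mu p s r * (a0 + ∑ q, α q * Yl p (s r) q) =
        a0 * mu p s r + ∑ q, α q * (mu p s r * Yl p (s r) q) := by
      intro r
      rw [mul_add, Finset.mul_sum]
      congr 1
      · ring
      · exact Finset.sum_congr rfl fun q _ => by ring
    simp_rw [e1]
    rw [Finset.sum_add_distrib, ← Finset.mul_sum, (hLVL p s hs).1, Finset.sum_comm]
    simp_rw [← Finset.mul_sum]
    rw [Finset.sum_eq_zero fun q _ => by rw [(hLVL p s hs).2 hell q, mul_zero]]
    ring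
  rw [Fin.sum_univ_castSucc] at h1 hA
  have h2 : ∀ r : Fin (p + 1), mu p s r.castSucc * (a0 + ∑ q, α q * Yl p (s r.castSucc) q) =
      mu p s r.castSucc * A r.castSucc := fun r => by rw [h r]
  rw [Finset.sum_congr rfl fun r _ => h2 r] at h1
  have h3 : mu p s (Fin.last (p + 1)) * (a0 + ∑ q, α q * Yl p (s (Fin.last (p + 1))) q) =
      mu p s (Fin.last (p + 1)) * A (Fin.last (p + 1)) := by linarith
  intro r
  refine Fin.lastCases ?_ (fun r => h r) r
  exact mul_left_cancel₀ (TOK_mu hs hell _) h3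

theorem TOK_sel {n : ℕ} (mu e m : Fin (n + 1) → ℝ) (he : ∀ r, e r = 1 ∨ e r = -1)
    (hmu : ∀ r, mu r ≠ 0) (hM : 0 < ∑ r, m r) :
    ∃ (ε : ℝ) (A : Fin (n + 1) → ℝ), ∑ r, mu r * A r = 0 ∧
      ∀ r v, m r ≤ mu r * v → 0 < e r * (ε * v + A r) := by
  have hn : (0 : ℝ) < ((n + 1 : ℕ) : ℝ) := by positivity
  have hMn : 0 < (∑ r, m r) / ((n + 1 : ℕ) : ℝ) := div_pos hM hn
  have hsum : ∑ r, mu r * (((∑ r, m r) / ((n + 1 : ℕ) : ℝ) - m r) / mu r) = 0 := by
    have h1 : ∀ r, mu r * (((∑ r, m r) / ((n + 1 : ℕ) : ℝ) - m r) / mu r) =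
        (∑ r, m r) / ((n + 1 : ℕ) : ℝ) - m r := fun r => mul_div_cancel₀ _ (hmu r)
    simp_rw [h1]
    rw [Finset.sum_sub_distrib, Finset.sum_const, Finset.card_univ, Fintype.card_fin, nsmul_eq_mul,
      mul_div_cancel₀ _ hn.ne', sub_self]
  have hpos : ∀ r v, m r ≤ mu r * v →
      0 < mu r * (v + ((∑ r, m r) / ((n + 1 : ℕ) : ℝ) - m r) / mu r) := by
    intro r v hv
    rw [mul_add, mul_div_cancel₀ _ (hmu r)]
    linarith
  by_cases h1 : ∀ r, 0 < e r * mu r
  · refine ⟨1, fun r => ((∑ r, m r) / ((n + 1 : ℕ) : ℝ) - m r) / mu r, hsum, fun r v hv => ?_⟩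
    have h2 := mul_pos (h1 r) (hpos r v hv)
    have h3 : 0 < mu r ^ 2 := by have := hmu r; positivity
    rw [one_mul]
    by_contra h4
    push Not at h4
    nlinarith [mul_nonneg h3.le (neg_nonneg.2 h4)]
  · by_cases h1' : ∀ r, e r * mu r < 0
    · refine ⟨-1, fun r => -(((∑ r, m r) / ((n + 1 : ℕ) : ℝ) - m r) / mu r), ?_, fun r v hv => ?_⟩
      · simp_rw [mul_neg]
        rw [Finset.sum_neg_distrib, hsum, neg_zero]
      · have h2 := mul_pos (neg_pos.2 (h1' r)) (hpos r v hv)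
        have h3 : 0 < mu r ^ 2 := by have := hmu r; positivity
        by_contra h4
        push Not at h4
        nlinarith [mul_nonneg h3.le (neg_nonneg.2 h4)]
    · push Not at h1 h1'
      obtain ⟨r1, hr1⟩ := h1
      obtain ⟨r2, hr2⟩ := h1'
      have hw : ∀ r, e r * mu r ≠ 0 := by
        intro r
        refine mul_ne_zero ?_ (hmu r)
        rcases he r with h | h <;> rw [h] <;> norm_num
      have hP : 0 < ∑ r, max (e r * mu r) 0 := by
        refine Finset.sum_pos' (fun r _ => le_max_right _ _) ⟨r2, Finset.mem_univ _, ?_⟩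
        exact lt_max_of_lt_left (lt_of_le_of_ne hr2 (Ne.symm (hw r2)))
      have hN : 0 < ∑ r, max (-(e r * mu r)) 0 := by
        refine Finset.sum_pos' (fun r _ => le_max_right _ _) ⟨r1, Finset.mem_univ _, ?_⟩
        exact lt_max_of_lt_left (neg_pos.2 (lt_of_le_of_ne hr1 (hw r1)))
      refine ⟨0, fun r => e r * (if 0 < e r * mu r then ∑ r, max (-(e r * mu r)) 0
        else ∑ r, max (e r * mu r) 0), ?_, fun r v _ => ?_⟩
      · have h2 : ∀ r, mu r * (e r * (if 0 < e r * mu r then ∑ r, max (-(e r * mu r)) 0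
            else ∑ r, max (e r * mu r) 0)) =
            (∑ r, max (-(e r * mu r)) 0) * max (e r * mu r) 0 -
              (∑ r, max (e r * mu r) 0) * max (-(e r * mu r)) 0 := by
          intro r
          split_ifs with h
          · rw [max_eq_left h.le, max_eq_right (neg_nonpos.2 h.le)]
            ring
          · push Not at h
            rw [max_eq_right h, max_eq_left (neg_nonneg.2 h)]
            ring
        simp_rw [h2]
        rw [Finset.sum_sub_distrib, ← Finset.mul_sum, ← Finset.mul_sum]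
        ring
      · have h2 : e r * e r = 1 := by
          rcases he r with h | h <;> rw [h] <;> norm_num
        rw [zero_mul, zero_add, ← mul_assoc, h2, one_mul]
        split_ifs
        · exact hN
        · exact hP

theorem TOK (hINT : INT_stmt) (hLVL : LVL_stmt) (hDET : DET_stmt) : TOK_stmt := by
  intro p V ι τ _ _ _ _ hcard hG
  obtain ⟨s, x, a, b, c, hs, hell, hsep, hdist⟩ := hG
  let b' : τ → (Fin (p + 1) → ℝ) →ₗ[ℝ] V := fun t =>
    (LinearMap.toSpanSingleton ℝ V (b t)).comp (LinearMap.proj 0) +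
      (c t).comp (LinearMap.pi fun q : Fin p => LinearMap.proj q.succ)
  have hb' : ∀ t i, b' t (Fin.cons (x t i) (Yl p (s i)) : Fin (p + 1) → ℝ) =
      x t i • b t + c t (Yl p (s i)) := by
    intro t i
    rfl
  refine ⟨fun t i => Fin.cons (x t i) (Yl p (s i)), a, b', ?_, ?_⟩
  · intro S u hS
    classical
    rcases isEmpty_or_nonempty τ with hτ | hτ
    · exact ⟨0, 0, fun i _ t => (hτ.false t).elim⟩
    obtain ⟨S', hSS', hS'⟩ := Finset.exists_superset_card_eq hS hcard
    let E := S'.equivFinOfCardEq hS'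
    let I : Fin (p + 2) → ι := fun r => (E.symm r : ι)
    have hI : Function.Injective I := fun r r' h => E.symm.injective (Subtype.ext h)
    obtain ⟨f, hf⟩ := hsep I hI
    have hsI : Function.Injective (s ∘ I) := hs.comp hI
    have hellI : ∀ r, ell p ((s ∘ I) r) ≠ 0 := fun r => hell _
    let val : τ → Fin (p + 2) → ℝ := fun t r =>
      f (x t (I r), a t + x t (I r) • b t + c t (Yl p (s (I r))))
    choose t₀ ht₀ using fun r : Fin (p + 2) =>
      Finite.exists_min (fun t => mu p (s ∘ I) r * val t r)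
    obtain ⟨ε, A, hA, hpos⟩ := TOK_sel (mu p (s ∘ I)) (fun r => if I r ∈ u then 1 else -1)
      (fun r => mu p (s ∘ I) r * val (t₀ r) r)
      (fun r => by by_cases h : I r ∈ u <;> simp [h]) (TOK_mu hsI hellI) (hf t₀)
    obtain ⟨a0, α, hα⟩ := TOK_aff hINT hLVL hsI hellI A hA
    let F : ((Fin (p + 1) → ℝ) × V) →ₗ[ℝ] ℝ :=
      ε • f.comp (LinearMap.prodMap (LinearMap.proj 0 : (Fin (p + 1) → ℝ) →ₗ[ℝ] ℝ)
        (LinearMap.id : V →ₗ[ℝ] V)) +
      (∑ q, α q • (LinearMap.proj q.succ : (Fin (p + 1) → ℝ) →ₗ[ℝ] ℝ)).comp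
        (LinearMap.fst ℝ (Fin (p + 1) → ℝ) V)
    refine ⟨F, -a0, ?_⟩
    intro i hi t
    obtain ⟨r, hr⟩ : ∃ r, I r = i := ⟨E ⟨i, hSS' hi⟩, by
      show ((E.symm (E ⟨i, hSS' hi⟩) : S') : ι) = i
      rw [Equiv.symm_apply_apply]⟩
    have h1 : F ((Fin.cons (x t i) (Yl p (s i)) : Fin (p + 1) → ℝ),
          a t + b' t (Fin.cons (x t i) (Yl p (s i)) : Fin (p + 1) → ℝ)) =
        ε * val t r + ∑ q, α q * Yl p (s i) q := by
      rw [hb', ← add_assoc]
      subst hr
      show ε * f (x t (I r), a t + x t (I r) • b t + c t (Yl p (s (I r)))) +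
        (∑ q, α q • (LinearMap.proj q.succ : (Fin (p + 1) → ℝ) →ₗ[ℝ] ℝ))
          (Fin.cons (x t (I r)) (Yl p (s (I r))) : Fin (p + 1) → ℝ) = _
      rw [LinearMap.sum_apply]
      rfl
    have h2 := hpos r (val t r) (ht₀ r t)
    have h3 := hα r
    have h4 : (s ∘ I) r = s i := by
      show s (I r) = s i
      rw [hr]
    rw [h4] at h3
    simp only [hr] at h2
    constructor
    · intro hu
      rw [if_pos hu] at h2
      rw [h1]
      linarith
    · intro hu
      rw [if_neg hu] at h2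
      rw [h1]
      linarith
  · intro t t' htt'
    obtain ⟨I, hI, hlt⟩ := hdist t t' htt'
    obtain ⟨C, hC, hdet⟩ := hDET p (s ∘ I) (hs.comp hI) (fun r => hell _)
    refine ⟨I, ?_⟩
    have h1 : ∀ t, Pool.Agent.helper8.GK.detK
        ((fun t i => (Fin.cons (x t i) (Yl p (s i)) : Fin (p + 1) → ℝ)) t) I =
        C * ∑ r, mu p (s ∘ I) r * x t (I r) := fun t => hdet fun r => x t (I r)
    rw [h1 t, h1 t']
    have h2 : 0 < C ^ 2 := by positivity
    nlinarith [mul_pos h2 (neg_pos.2 hlt)]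

end Pool.Agent.GF
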